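import Pool.Agent.Zk48.PI.Defs

set_option autoImplicit false

namespace Pool.Agent.Zk48.PI

variable {𝕜 : Type*} [RCLike 𝕜] {k : ℕ} {X : Type*} [NormedAddCommGroup X] [NormedSpace 𝕜 X]

lemma IsHomPoly.bound {P : X → X} (h : IsHomPoly 𝕜 k P) : ∃ C : ℝ, 0 ≤ C ∧ ∀ x, ‖P x‖ ≤ C * ‖x‖ ^ k := by
  obtain ⟨A, hA⟩ := h
  refine ⟨‖A‖, norm_nonneg _, fun x => ?_⟩
  rw [hA]
  refine (A.le_opNorm _).trans ?_
  simp

lemma IsHomPoly.continuous {P : X → X} (h : IsHomPoly 𝕜 k P) : Continuous P := by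
  obtain ⟨A, hA⟩ := h
  have : P = fun x => A (fun _ => x) := funext hA
  rw [this]
  exact A.cont.comp (continuous_pi fun _ => continuous_id)

lemma IsHomPoly.smul {P : X → X} (h : IsHomPoly 𝕜 k P) (c : 𝕜) : IsHomPoly 𝕜 k (fun x => c • P x) := by
  obtain ⟨A, hA⟩ := h
  refine ⟨c • A, fun x => ?_⟩
  simp [hA]

lemma polyNorm_bdd {P : X → X} (h : IsHomPoly 𝕜 k P) :
    BddAbove {r : ℝ | ∃ x : X, ‖x‖ = 1 ∧ r = ‖P x‖} := by
  obtain ⟨C, _, hC⟩ := h.bound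
  refine ⟨C, ?_⟩
  rintro r ⟨x, hx, rfl⟩
  simpa [hx] using hC x

lemma le_polyNorm {P : X → X} (h : IsHomPoly 𝕜 k P) {x : X} (hx : ‖x‖ = 1) :
    ‖P x‖ ≤ polyNorm P :=
  le_csSup (polyNorm_bdd h) ⟨x, hx, rfl⟩

lemma numRadius_bdd {P : X → X} (h : IsHomPoly 𝕜 k P) :
    BddAbove {r : ℝ | ∃ (x : X) (f : X →L[𝕜] 𝕜), ‖x‖ = 1 ∧ ‖f‖ = 1 ∧ f x = 1 ∧ r = ‖f (P x)‖} := by
  obtain ⟨C, _, hC⟩ := h.bound
  refine ⟨C, ?_⟩
  rintro r ⟨x, f, hx, hf, -, rfl⟩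
  refine (f.le_opNorm _).trans ?_
  rw [hf, one_mul]
  simpa [hx] using hC x

lemma le_numRadius {P : X → X} (h : IsHomPoly 𝕜 k P) {x : X} {f : X →L[𝕜] 𝕜} (hx : ‖x‖ = 1)
    (hf : ‖f‖ = 1) (hfx : f x = 1) : ‖f (P x)‖ ≤ numRadius 𝕜 P :=
  le_csSup (numRadius_bdd h) ⟨x, f, hx, hf, hfx, rfl⟩

/-- the same with a functional of norm at most one -/
lemma le_numRadius' {P : X → X} (h : IsHomPoly 𝕜 k P) {x : X} {f : X →L[𝕜] 𝕜} (hx : ‖x‖ ≤ 1)
    (hf : ‖f‖ ≤ 1) (hfx : f x = 1) : ‖f (P x)‖ ≤ numRadius 𝕜 P := by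
  have h1 : (1 : ℝ) ≤ ‖f‖ * ‖x‖ := by
    have := f.le_opNorm x
    rwa [hfx, norm_one] at this
  have h2 : ‖x‖ = 1 := by
    refine le_antisymm hx ?_
    have : ‖f‖ * ‖x‖ ≤ 1 * ‖x‖ := mul_le_mul_of_nonneg_right hf (norm_nonneg _)
    linarith
  have h3 : ‖f‖ = 1 := by
    rw [h2, mul_one] at h1
    exact le_antisymm hf h1
  exact le_numRadius h h2 h3 hfx

lemma numRadius_nonneg (P : X → X) : 0 ≤ numRadius 𝕜 P := by
  refine Real.sSup_nonneg ?_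
  rintro r ⟨x, f, -, -, -, rfl⟩
  exact norm_nonneg _

lemma polyIndex_le {P : X → X} (h : IsHomPoly 𝕜 k P) (h1 : polyNorm P = 1) :
    polyIndex 𝕜 k X ≤ numRadius 𝕜 P := by
  refine csInf_le ⟨0, ?_⟩ ⟨P, h, h1, rfl⟩
  rintro v ⟨Q, -, -, rfl⟩
  exact numRadius_nonneg Q

lemma quad_expand (A : ContinuousMultilinearMap 𝕜 (fun _ : Fin 2 => X) X) (a b : 𝕜) (x y : X) :
    A (fun _ => a • x + b • y) = (a ^ 2) • A (fun _ => x) + (b ^ 2) • A (fun _ => y) +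
      (a * b) • (A ![x, y] + A ![y, x]) := by
  have hu0 : ∀ x y z : X, Function.update ![x, y] 0 z = ![z, y] := by
    intro x y z; ext i; fin_cases i <;> simp
  have hu1 : ∀ x y z : X, Function.update ![x, y] 1 z = ![x, z] := by
    intro x y z; ext i; fin_cases i <;> simp
  have hl : ∀ (x x' y : X), A ![x + x', y] = A ![x, y] + A ![x', y] := by
    intro x x' y
    have := A.map_update_add ![x, y] 0 x x'
    rwa [hu0, hu0, hu0] at this
  have hr : ∀ (x y y' : X), A ![x, y + y'] = A ![x, y] + A ![x, y'] := by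
    intro x y y'
    have := A.map_update_add ![x, y] 1 y y'
    rwa [hu1, hu1, hu1] at this
  have hls : ∀ (c : 𝕜) (x y : X), A ![c • x, y] = c • A ![x, y] := by
    intro c x y
    have := A.map_update_smul ![x, y] 0 c x
    rwa [hu0, hu0] at this
  have hrs : ∀ (c : 𝕜) (x y : X), A ![x, c • y] = c • A ![x, y] := by
    intro c x y
    have := A.map_update_smul ![x, y] 1 c y
    rwa [hu1, hu1] at this
  have hd : ∀ x : X, (fun _ : Fin 2 => x) = ![x, x] := by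
    intro x; ext i; fin_cases i <;> rfl
  rw [hd, hd, hd, hl, hr, hr]
  simp only [hls, hrs, smul_smul, smul_add]
  rw [show a ^ 2 = a * a by ring, show b ^ 2 = b * b by ring, mul_comm b a]
  abel

/-- The identity `P (λ x + (1 - λ) y) = λ P x + (1 - λ) P y - λ (1 - λ) P (x - y)`. -/
lemma quad_identity {P : X → X} (h : IsHomPoly 𝕜 2 P) (l : 𝕜) (x y : X) :
    P (l • x + (1 - l) • y) = l • P x + (1 - l) • P y - (l * (1 - l)) • P (x - y) := by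
  obtain ⟨A, hA⟩ := h
  have h1 := quad_expand A l (1 - l) x y
  have h2 := quad_expand A 1 (-1) x y
  have h3 : (1 : 𝕜) • x + (-1 : 𝕜) • y = x - y := by simp [sub_eq_add_neg]
  rw [h3] at h2
  rw [hA, hA, hA, hA, h1, h2]
  module

lemma hom_smul {P : X → X} (h : IsHomPoly 𝕜 2 P) (c : 𝕜) (x : X) : P (c • x) = (c ^ 2) • P x := by
  obtain ⟨A, hA⟩ := h
  have h1 := quad_expand A c 0 x 0
  rw [hA, hA]
  simpa using h1

/-- The key estimate: if `|f (P x)|, |f (P y)| ≤ v` and `|f (P (x - y))| ≤ 4 v`, then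
`|f (P z)| ≤ 2 v` for the convex combinations `z` of `x` and `y`. -/
lemma quad_bound {X : Type*} [NormedAddCommGroup X] [NormedSpace ℝ X] {P : X → X}
    (h : IsHomPoly ℝ 2 P) (f : X →L[ℝ] ℝ) {l v : ℝ} (hl0 : 0 ≤ l) (hl1 : l ≤ 1) {x y : X}
    (hx : |f (P x)| ≤ v) (hy : |f (P y)| ≤ v) (hxy : |f (P (x - y))| ≤ 4 * v) :
    |f (P (l • x + (1 - l) • y))| ≤ 2 * v := by
  rw [quad_identity h]
  simp only [map_add, map_sub, map_smul, smul_eq_mul]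
  rw [abs_le] at *
  have h4 : 0 ≤ l * (1 - l) := mul_nonneg hl0 (by linarith)
  have h5 : l * (1 - l) ≤ 1 / 4 := by nlinarith [sq_nonneg (l - 1 / 2)]
  have hv : 0 ≤ v := by linarith [hx.1, hx.2]
  have h6 : l * (1 - l) * (4 * v) ≤ v := by nlinarith
  constructor
  · nlinarith [mul_nonneg hl0 (by linarith [hx.1] : 0 ≤ f (P x) + v),
      mul_nonneg (by linarith : 0 ≤ 1 - l) (by linarith [hy.1] : 0 ≤ f (P y) + v),
      mul_nonneg h4 (by linarith [hxy.2] : 0 ≤ 4 * v - f (P (x - y)))]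
  · nlinarith [mul_nonneg hl0 (by linarith [hx.2] : 0 ≤ v - f (P x)),
      mul_nonneg (by linarith : 0 ≤ 1 - l) (by linarith [hy.2] : 0 ≤ v - f (P y)),
      mul_nonneg h4 (by linarith [hxy.1] : 0 ≤ f (P (x - y)) + 4 * v)]

/-- If `‖P x‖ ≤ 2 v(P)` for all `x` in the unit sphere, for all `P`, and there is a polynomial of
norm one and numerical radius at most `1 / 2`, then the index is `1 / 2`. -/
lemma index_eq {X : Type*} [NormedAddCommGroup X] [NormedSpace ℝ X]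
    (hlow : ∀ P : X → X, IsHomPoly ℝ 2 P → ∀ x : X, ‖x‖ = 1 → ‖P x‖ ≤ 2 * numRadius ℝ P)
    {P : X → X} (hP : IsHomPoly ℝ 2 P) (hP1 : polyNorm P = 1) (hP2 : numRadius ℝ P ≤ 1 / 2) :
    polyIndex ℝ 2 X = 1 / 2 := by
  refine le_antisymm ((polyIndex_le hP hP1).trans hP2) ?_
  refine le_csInf ⟨_, P, hP, hP1, rfl⟩ ?_
  rintro v ⟨Q, hQ, hQ1, rfl⟩
  have h1 : polyNorm Q ≤ 2 * numRadius ℝ Q := by
    refine Real.sSup_le ?_ (mul_nonneg zero_le_two (numRadius_nonneg Q))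
    rintro r ⟨x, hx, rfl⟩
    exact hlow Q hQ x hx
  linarith

end Pool.Agent.Zk48.PI
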