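import Pool.Agent.Zk48.PI.Basic

set_option autoImplicit false

namespace Pool.Agent.Zk48.PI

open Filter Topology

variable {K : Type*} [TopologicalSpace K] [CompactSpace K]

/-- evaluation at a point -/
noncomputable def ev (t : K) : C(K, ℝ) →L[ℝ] ℝ := ContinuousMap.evalCLM ℝ t

lemma ev_apply (t : K) (x : C(K, ℝ)) : ev t x = x t := rfl

lemma ev_norm (t : K) : ‖ev t‖ ≤ 1 := by
  refine ContinuousLinearMap.opNorm_le_bound _ zero_le_one fun x => ?_
  rw [one_mul]
  exact x.norm_coe_le_norm t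

lemma abs_le_of_norm {x : C(K, ℝ)} (h : ‖x‖ ≤ 1) (t : K) : |x t| ≤ 1 :=
  (x.norm_coe_le_norm t).trans h

/-- `|P x t| ≤ v(P)` if `‖x‖ ≤ 1` and `|x t| = 1`. -/
lemma bound_peak {P : C(K, ℝ) → C(K, ℝ)} (h : IsHomPoly ℝ 2 P) {x : C(K, ℝ)} (hx : ‖x‖ ≤ 1) (t : K)
    (ht : x t = 1 ∨ x t = -1) : |P x t| ≤ numRadius ℝ P := by
  rcases ht with ht | ht
  · exact le_numRadius' h hx (ev_norm t) ht
  · have := le_numRadius' (f := -ev t) h hx (by rw [norm_neg]; exact ev_norm t) (by
      rw [neg_apply, ev_apply, ht, neg_neg])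
    rw [neg_apply, norm_neg] at this
    exact this

lemma low_point {P : C(K, ℝ) → C(K, ℝ)} (h : IsHomPoly ℝ 2 P) {x φ : C(K, ℝ)} (hx : ‖x‖ ≤ 1)
    (hφ : ∀ s, φ s ∈ Set.Icc (0 : ℝ) 1) (t : K) (ht : φ t = 1) :
    |P (x * (1 - φ) + (x t) • φ) t| ≤ 2 * numRadius ℝ P := by
  have hxt := abs_le.mp (abs_le_of_norm hx t)
  have key := quad_bound h (ev t) (l := (1 + x t) / 2) (v := numRadius ℝ P) (by linarith [hxt.1])
    (by linarith [hxt.2]) (x := x * (1 - φ) + φ) (y := x * (1 - φ) - φ) ?_ ?_ ?_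
  · have e : ((1 + x t) / 2) • (x * (1 - φ) + φ) + (1 - (1 + x t) / 2) • (x * (1 - φ) - φ) =
        x * (1 - φ) + (x t) • φ := by
      ext s
      simp only [ContinuousMap.add_apply, ContinuousMap.smul_apply, ContinuousMap.mul_apply,
        ContinuousMap.sub_apply, ContinuousMap.one_apply, smul_eq_mul]
      ring
    rw [e] at key
    exact key
  · refine bound_peak h ?_ t ?_
    · refine (ContinuousMap.norm_le _ zero_le_one).mpr fun s => ?_
      have h1 := abs_le.mp (abs_le_of_norm hx s)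
      have h2 := hφ s
      rw [Set.mem_Icc] at h2
      simp only [ContinuousMap.add_apply, ContinuousMap.mul_apply,
        ContinuousMap.sub_apply, ContinuousMap.one_apply, Real.norm_eq_abs]
      rw [abs_le]
      constructor <;> nlinarith [h1.1, h1.2, h2.1, h2.2]
    · left
      simp [ht]
  · refine bound_peak h ?_ t ?_
    · refine (ContinuousMap.norm_le _ zero_le_one).mpr fun s => ?_
      have h1 := abs_le.mp (abs_le_of_norm hx s)
      have h2 := hφ s
      rw [Set.mem_Icc] at h2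
      simp only [ContinuousMap.mul_apply,
        ContinuousMap.sub_apply, ContinuousMap.one_apply, Real.norm_eq_abs]
      rw [abs_le]
      constructor <;> nlinarith [h1.1, h1.2, h2.1, h2.2]
    · right
      simp [ht]
  · have e : (x * (1 - φ) + φ) - (x * (1 - φ) - φ) = (2 : ℝ) • φ := by
      ext s
      simp only [ContinuousMap.add_apply, ContinuousMap.smul_apply, ContinuousMap.mul_apply,
        ContinuousMap.sub_apply, ContinuousMap.one_apply, smul_eq_mul]
      ring
    rw [e, hom_smul h]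
    have h1 : |P φ t| ≤ numRadius ℝ P := by
      refine bound_peak h ?_ t (Or.inl ht)
      refine (ContinuousMap.norm_le _ zero_le_one).mpr fun s => ?_
      have h2 := hφ s
      rw [Set.mem_Icc] at h2
      rw [Real.norm_eq_abs, abs_le]
      constructor <;> linarith [h2.1, h2.2]
    have h3 : ev t ((2 : ℝ) ^ 2 • P φ) = 4 * P φ t := by
      rw [map_smul, ev_apply, smul_eq_mul]; norm_num
    rw [h3, abs_mul]
    have : |(4 : ℝ)| = 4 := by norm_num
    rw [this]
    linarith

variable [T2Space K]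

lemma low {P : C(K, ℝ) → C(K, ℝ)} (h : IsHomPoly ℝ 2 P) {x : C(K, ℝ)} (hx : ‖x‖ = 1) :
    ‖P x‖ ≤ 2 * numRadius ℝ P := by
  refine (ContinuousMap.norm_le _ (mul_nonneg zero_le_two (numRadius_nonneg P))).mpr fun t => ?_
  refine le_of_forall_pos_le_add fun δ hδ => ?_
  have hc : ContinuousAt P x := h.continuous.continuousAt
  rw [Metric.continuousAt_iff] at hc
  obtain ⟨ε, hε, hc⟩ := hc δ hδ
  obtain ⟨φ, hφ0, hφ1, hφ⟩ := exists_continuous_zero_one_of_isClosed
    (s := {s | ε / 2 ≤ |x s - x t|}) (t := {t}) (by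
      refine isClosed_le continuous_const ?_
      exact ((x.continuous.sub continuous_const)).abs) isClosed_singleton (by
      rw [Set.disjoint_singleton_right]
      simp only [Set.mem_ofPred_eq, sub_self, abs_zero, not_le]
      positivity)
  have ht : φ t = 1 := hφ1 rfl
  have h1 := low_point h (x := x) hx.le hφ t ht
  set x' : C(K, ℝ) := x * (1 - φ) + (x t) • φ with hx'
  have h2 : dist x' x < ε := by
    have : dist x' x ≤ ε / 2 := by
      rw [dist_eq_norm]
      refine (ContinuousMap.norm_le _ (by positivity)).mpr fun s => ?_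
      have e : (x' - x) s = (x t - x s) * φ s := by
        simp only [hx', ContinuousMap.add_apply, ContinuousMap.smul_apply, ContinuousMap.mul_apply,
          ContinuousMap.sub_apply, ContinuousMap.one_apply, smul_eq_mul]
        ring
      rw [e, Real.norm_eq_abs, abs_mul]
      by_cases hs : ε / 2 ≤ |x s - x t|
      · have : φ s = 0 := hφ0 hs
        rw [this, abs_zero, mul_zero]
        positivity
      · push Not at hs
        have h3 := hφ s
        rw [Set.mem_Icc] at h3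
        rw [abs_sub_comm, abs_of_nonneg h3.1]
        nlinarith [abs_nonneg (x s - x t), h3.1, h3.2]
    linarith
  have h3 := hc h2
  have h4 : |P x' t - P x t| ≤ dist (P x') (P x) := by
    rw [dist_eq_norm]
    exact (P x' - P x).norm_coe_le_norm t
  rw [Real.norm_eq_abs]
  have h5 : |P x t| ≤ |P x' t| + |P x' t - P x t| := by
    have := abs_sub_abs_le_abs_sub (P x t) (P x' t)
    rw [abs_sub_comm] at this
    linarith
  linarith

/-- the extremal polynomial `x ↦ a (x(t₀)² - x² / 2)` -/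
noncomputable def PC (a : C(K, ℝ)) (t₀ : K) (x : C(K, ℝ)) : C(K, ℝ) :=
  a * ((x t₀ ^ 2) • 1 - (1 / 2 : ℝ) • x ^ 2)

lemma PC_hom (a : C(K, ℝ)) (t₀ : K) : IsHomPoly ℝ 2 (PC a t₀) := by
  let L : C(K, ℝ) →L[ℝ] C(K, ℝ) := (ev t₀).smulRight (1 : C(K, ℝ))
  let A1 := (ContinuousMultilinearMap.mkPiAlgebra ℝ (Fin 2) C(K, ℝ)).compContinuousLinearMap
    (fun _ => L)
  let A2 := ContinuousMultilinearMap.mkPiAlgebra ℝ (Fin 2) C(K, ℝ)
  refine ⟨(ContinuousLinearMap.mul ℝ C(K, ℝ) a).compContinuousMultilinearMap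
    (A1 - (1 / 2 : ℝ) • A2), fun x => ?_⟩
  ext s
  simp [PC, A1, A2, L, ev_apply]


lemma PC_apply (a : C(K, ℝ)) (t₀ : K) (x : C(K, ℝ)) (s : K) :
    PC a t₀ x s = a s * (x t₀ ^ 2 - x s ^ 2 / 2) := by
  simp only [PC, ContinuousMap.smul_apply, ContinuousMap.mul_apply,
        ContinuousMap.sub_apply, ContinuousMap.one_apply, smul_eq_mul, ContinuousMap.pow_apply]
  ring

lemma PC_norm {a : C(K, ℝ)} (ha : ∀ s, a s ∈ Set.Icc (0 : ℝ) 1) {t₀ t₁ : K} (h0 : a t₀ = 0)
    (h1 : a t₁ = 1) : polyNorm (PC a t₀) = 1 := by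
  refine le_antisymm ?_ ?_
  · refine Real.sSup_le ?_ zero_le_one
    rintro r ⟨x, hx, rfl⟩
    refine (ContinuousMap.norm_le _ zero_le_one).mpr fun s => ?_
    rw [PC_apply, Real.norm_eq_abs, abs_mul]
    have h2 := abs_le.mp (abs_le_of_norm hx.le s)
    have h3 := abs_le.mp (abs_le_of_norm hx.le t₀)
    have h4 := ha s
    rw [Set.mem_Icc] at h4
    have h5 : |a s| ≤ 1 := by rw [abs_of_nonneg h4.1]; exact h4.2
    have h6 : |x t₀ ^ 2 - x s ^ 2 / 2| ≤ 1 := by
      rw [abs_le]
      constructor <;> nlinarith [h2.1, h2.2, h3.1, h3.2, sq_nonneg (x t₀), sq_nonneg (x s)]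
    calc |a s| * |x t₀ ^ 2 - x s ^ 2 / 2| ≤ 1 * 1 :=
          mul_le_mul h5 h6 (abs_nonneg _) zero_le_one
      _ = 1 := one_mul 1
  · have hn : ‖(1 - a : C(K, ℝ))‖ = 1 := by
      refine le_antisymm ?_ ?_
      · refine (ContinuousMap.norm_le _ zero_le_one).mpr fun s => ?_
        have h4 := ha s
        rw [Set.mem_Icc] at h4
        simp only [ContinuousMap.sub_apply, ContinuousMap.one_apply, Real.norm_eq_abs]
        rw [abs_le]
        constructor <;> linarith [h4.1, h4.2]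
      · have := (1 - a : C(K, ℝ)).norm_coe_le_norm t₀
        simpa [h0] using this
    have h2 := le_polyNorm (PC_hom a t₀) hn
    have h3 := (PC a t₀ (1 - a)).norm_coe_le_norm t₁
    rw [PC_apply] at h3
    simp only [ContinuousMap.sub_apply, ContinuousMap.one_apply, h0, h1] at h3
    norm_num at h3
    linarith

lemma PC_radius {a : C(K, ℝ)} (ha : ∀ s, a s ∈ Set.Icc (0 : ℝ) 1) (t₀ : K) :
    numRadius ℝ (PC a t₀) ≤ 1 / 2 := by
  refine Real.sSup_le ?_ (by norm_num)
  rintro r ⟨x, f, hx, hf, hfx, rfl⟩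
  have ha1 : ‖a‖ ≤ 1 := by
    refine (ContinuousMap.norm_le _ zero_le_one).mpr fun s => ?_
    have h4 := ha s
    rw [Set.mem_Icc] at h4
    rw [Real.norm_eq_abs, abs_of_nonneg h4.1]; exact h4.2
  have hz : ∀ z : C(K, ℝ), ‖x + z‖ ≤ 1 → f z ≤ 0 := by
    intro z hz
    have h1 := (le_abs_self _).trans (f.le_opNorm (x + z))
    rw [hf, one_mul, map_add, hfx] at h1
    linarith
  have hzero : f (a * (1 - x ^ 2)) = 0 := by
    have hp : ‖x + (1 / 2 : ℝ) • (a * (1 - x ^ 2))‖ ≤ 1 := by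
      refine (ContinuousMap.norm_le _ zero_le_one).mpr fun s => ?_
      have h2 := abs_le.mp (abs_le_of_norm hx.le s)
      have h4 := ha s
      rw [Set.mem_Icc] at h4
      simp only [ContinuousMap.add_apply, ContinuousMap.smul_apply, ContinuousMap.mul_apply,
        ContinuousMap.sub_apply, ContinuousMap.one_apply, smul_eq_mul, Real.norm_eq_abs,
        ContinuousMap.pow_apply]
      have h5 : 0 ≤ 1 - x s ^ 2 := by nlinarith [h2.1, h2.2]
      rw [abs_le]
      constructor
      · nlinarith [mul_nonneg h4.1 h5, h2.1]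
      · have : a s * (1 - x s ^ 2) ≤ 1 * (1 - x s ^ 2) := mul_le_mul_of_nonneg_right h4.2 h5
        nlinarith [sq_nonneg (1 - x s)]
    have hm : ‖x + (-(1 / 2 : ℝ)) • (a * (1 - x ^ 2))‖ ≤ 1 := by
      refine (ContinuousMap.norm_le _ zero_le_one).mpr fun s => ?_
      have h2 := abs_le.mp (abs_le_of_norm hx.le s)
      have h4 := ha s
      rw [Set.mem_Icc] at h4
      simp only [ContinuousMap.add_apply, ContinuousMap.smul_apply, ContinuousMap.mul_apply,
        ContinuousMap.sub_apply, ContinuousMap.one_apply, smul_eq_mul, Real.norm_eq_abs,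
        ContinuousMap.pow_apply]
      have h5 : 0 ≤ 1 - x s ^ 2 := by nlinarith [h2.1, h2.2]
      rw [abs_le]
      constructor
      · have : a s * (1 - x s ^ 2) ≤ 1 * (1 - x s ^ 2) := mul_le_mul_of_nonneg_right h4.2 h5
        nlinarith [sq_nonneg (1 + x s)]
      · nlinarith [mul_nonneg h4.1 h5, h2.2]
    have h1 := hz _ hp
    have h2 := hz _ hm
    rw [map_smul, smul_eq_mul] at h1 h2
    linarith
  have hdec : PC a t₀ x = (x t₀ ^ 2 - 1 / 2) • a + (1 / 2 : ℝ) • (a * (1 - x ^ 2)) := by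
    ext s
    rw [PC_apply]
    simp only [ContinuousMap.add_apply, ContinuousMap.smul_apply, ContinuousMap.mul_apply,
      ContinuousMap.sub_apply, ContinuousMap.one_apply, smul_eq_mul, ContinuousMap.pow_apply]
    ring
  rw [hdec, map_add, map_smul, map_smul, hzero, smul_zero, add_zero, smul_eq_mul, norm_mul]
  have h1 : ‖x t₀ ^ 2 - 1 / 2‖ ≤ 1 / 2 := by
    have h3 := abs_le.mp (abs_le_of_norm hx.le t₀)
    rw [Real.norm_eq_abs, abs_le]
    constructor <;> nlinarith [h3.1, h3.2, sq_nonneg (x t₀)]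
  have h2 : ‖f a‖ ≤ 1 := by
    refine (f.le_opNorm a).trans ?_
    rw [hf, one_mul]
    exact ha1
  calc ‖x t₀ ^ 2 - 1 / 2‖ * ‖f a‖ ≤ 1 / 2 * 1 := mul_le_mul h1 h2 (norm_nonneg _) (by norm_num)
    _ = 1 / 2 := by norm_num

theorem index_CK [Nontrivial K] : polyIndex ℝ 2 C(K, ℝ) = 1 / 2 := by
  obtain ⟨t₀, t₁, hne⟩ := exists_pair_ne K
  obtain ⟨a, ha0, ha1, ha⟩ := exists_continuous_zero_one_of_isClosed
    (s := {t₀}) (t := {t₁}) isClosed_singleton isClosed_singleton (by simpa using hne)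
  exact index_eq (fun P hP x hx => low hP hx) (PC_hom a t₀)
    (PC_norm ha (ha0 rfl) (ha1 rfl)) (PC_radius ha t₀)

end Pool.Agent.Zk48.PI
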