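import Mathlib

/-!
# Polynomial numerical indices of Banach spaces: definitions

`X` is a normed space over `𝕜` (the real or the complex numbers).
-/

set_option autoImplicit false

namespace Pool.Agent.Zk48.PI

section

variable (𝕜 : Type*) [RCLike 𝕜] (k : ℕ) {X : Type*} [NormedAddCommGroup X] [NormedSpace 𝕜 X]

/-- `P : X → X` is a continuous `k`-homogeneous polynomial: `P x = A (x, …, x)` for a continuous
`k`-linear map `A`. -/
def IsHomPoly (P : X → X) : Prop :=
  ∃ A : ContinuousMultilinearMap 𝕜 (fun _ : Fin k => X) X, ∀ x, P x = A (fun _ => x)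

/-- The norm of a polynomial: the supremum of `‖P x‖` over the unit sphere. -/
noncomputable def polyNorm {X : Type*} [NormedAddCommGroup X] (P : X → X) : ℝ :=
  sSup {r : ℝ | ∃ x : X, ‖x‖ = 1 ∧ r = ‖P x‖}

/-- The numerical radius `v(P)`: the supremum of `|x*(P x)|` over all `x` in the unit sphere of `X`
and all `x*` in the unit sphere of the dual space with `x*(x) = 1`. -/
noncomputable def numRadius (P : X → X) : ℝ :=
  sSup {r : ℝ | ∃ (x : X) (f : X →L[𝕜] 𝕜), ‖x‖ = 1 ∧ ‖f‖ = 1 ∧ f x = 1 ∧ r = ‖f (P x)‖}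

end

/-- The `k`-th polynomial numerical index of `X`: the infimum of the numerical radii of the
continuous `k`-homogeneous polynomials `P : X → X` of norm one. -/
noncomputable def polyIndex (𝕜 : Type*) [RCLike 𝕜] (k : ℕ) (X : Type*) [NormedAddCommGroup X]
    [NormedSpace 𝕜 X] : ℝ :=
  sInf {v : ℝ | ∃ P : X → X, IsHomPoly 𝕜 k P ∧ polyNorm P = 1 ∧ v = numRadius 𝕜 P}

end Pool.Agent.Zk48.PI
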