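import Pool.Agent.Zk48.PI.Sum

set_option autoImplicit false

namespace Pool.Agent.Zk48.PI

open MeasureTheory

variable {𝕜 : Type*} [RCLike 𝕜] {α : Type*} [MeasurableSpace α] {μ : Measure α}

lemma mulFun_mem (h : α → ℝ) (hm : Measurable h) (hb : ∀ t, |h t| ≤ 1) (x : Lp 𝕜 1 μ) :
    MemLp (fun t => (h t : 𝕜) * x t) 1 μ := by
  refine (Lp.memLp x).of_le_mul (c := 1) ?_ ?_
  · exact ((RCLike.measurable_ofReal.comp hm).aestronglyMeasurable).mul
      (Lp.aestronglyMeasurable x)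
  · filter_upwards with t
    rw [norm_mul, RCLike.norm_ofReal, one_mul]
    exact mul_le_of_le_one_left (norm_nonneg _) (hb t)

/-- `h x`, for a bounded measurable function `h` -/
noncomputable def mulFun (h : α → ℝ) (hm : Measurable h) (hb : ∀ t, |h t| ≤ 1) :
    Lp 𝕜 1 μ →L[𝕜] Lp 𝕜 1 μ :=
  LinearMap.mkContinuous
    { toFun := fun x => (mulFun_mem h hm hb x).toLp _
      map_add' := by
        intro x y
        rw [← MemLp.toLp_add]
        refine MemLp.toLp_congr _ _ ?_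
        filter_upwards [Lp.coeFn_add x y] with t ht
        rw [ht]
        simp [mul_add]
      map_smul' := by
        intro c x
        simp only [RingHom.id_apply]
        rw [← MemLp.toLp_const_smul]
        refine MemLp.toLp_congr _ _ ?_
        filter_upwards [Lp.coeFn_smul c x] with t ht
        rw [ht]
        simp only [Pi.smul_apply, smul_eq_mul]
        ring } 1 (by
    intro x
    rw [one_mul]
    refine Lp.norm_le_norm_of_ae_le ?_
    simp only [LinearMap.coe_mk, AddHom.coe_mk]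
    filter_upwards [(mulFun_mem h hm hb x).coeFn_toLp] with t ht
    rw [ht, norm_mul, RCLike.norm_ofReal]
    exact mul_le_of_le_one_left (norm_nonneg _) (hb t))

lemma mulFun_coe (h : α → ℝ) (hm : Measurable h) (hb : ∀ t, |h t| ≤ 1) (x : Lp 𝕜 1 μ) :
    mulFun h hm hb x =ᵐ[μ] fun t => (h t : 𝕜) * x t :=
  (mulFun_mem h hm hb x).coeFn_toLp

lemma integ_bound (x : Lp 𝕜 1 μ) : ‖∫ t, x t ∂μ‖ ≤ ‖x‖ := by
  rw [L1.norm_eq_integral_norm]
  exact norm_integral_le_integral_norm _

/-- the integral -/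
noncomputable def integ : Lp 𝕜 1 μ →L[𝕜] 𝕜 :=
  LinearMap.mkContinuous
    { toFun := fun x => ∫ t, x t ∂μ
      map_add' := by
        intro x y
        rw [← integral_add (L1.integrable_coeFn x) (L1.integrable_coeFn y)]
        refine integral_congr_ae ?_
        filter_upwards [Lp.coeFn_add x y] with t ht
        rw [ht, Pi.add_apply]
      map_smul' := by
        intro c x
        rw [RingHom.id_apply, ← integral_smul]
        refine integral_congr_ae ?_
        filter_upwards [Lp.coeFn_smul c x] with t ht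
        rw [ht, Pi.smul_apply] } 1 (by
    intro x
    rw [one_mul]
    exact integ_bound x)

lemma integ_eq (x : Lp 𝕜 1 μ) : integ x = ∫ t, x t ∂μ := rfl

lemma integ_le (x : Lp 𝕜 1 μ) : ‖integ x‖ ≤ ‖x‖ := integ_bound x

lemma norm_mulFun (h : α → ℝ) (hm : Measurable h) (hb : ∀ t, |h t| ≤ 1) (x : Lp 𝕜 1 μ) :
    ‖mulFun h hm hb x‖ = ∫ t, |h t| * ‖x t‖ ∂μ := by
  rw [L1.norm_eq_integral_norm]
  refine integral_congr_ae ?_
  filter_upwards [mulFun_coe h hm hb x] with t ht
  rw [ht, norm_mul, RCLike.norm_ofReal]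

lemma integrable_norm (h : α → ℝ) (hm : Measurable h) (hb : ∀ t, |h t| ≤ 1) (x : Lp 𝕜 1 μ) :
    Integrable (fun t => |h t| * ‖x t‖) μ := by
  have h1 := (memLp_one_iff_integrable.mp (mulFun_mem h hm hb x)).norm
  refine h1.congr ?_
  filter_upwards with t
  rw [norm_mul, RCLike.norm_ofReal]

open Classical in
/-- the indicator function of a set -/
noncomputable def ind (S : Set α) (t : α) : ℝ := if t ∈ S then 1 else 0

lemma ind_meas {S : Set α} (hS : MeasurableSet S) : Measurable (ind S) :=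
  Measurable.ite hS measurable_const measurable_const

lemma ind_le (S : Set α) (t : α) : |ind S t| ≤ 1 := by
  unfold ind; split_ifs <;> simp

/-- the restriction to a measurable set -/
noncomputable def res {S : Set α} (hS : MeasurableSet S) : Lp 𝕜 1 μ →L[𝕜] Lp 𝕜 1 μ :=
  mulFun (ind S) (ind_meas hS) (ind_le S)

lemma res_coe {S : Set α} (hS : MeasurableSet S) (x : Lp 𝕜 1 μ) :
    res hS x =ᵐ[μ] fun t => (ind S t : 𝕜) * x t := mulFun_coe _ _ _ x

lemma res_add {S : Set α} (hS : MeasurableSet S) (x : Lp 𝕜 1 μ) :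
    res hS x + res hS.compl x = x := by
  refine Lp.ext ?_
  filter_upwards [Lp.coeFn_add (res hS x) (res hS.compl x), res_coe hS x, res_coe hS.compl x]
    with t h1 h2 h3
  rw [h1, Pi.add_apply, h2, h3]
  by_cases ht : t ∈ S <;> simp [ind, ht]

lemma res_norm {S : Set α} (hS : MeasurableSet S) (x : Lp 𝕜 1 μ) :
    ‖x‖ = ‖res hS x‖ + ‖res hS.compl x‖ := by
  unfold res
  rw [norm_mulFun, norm_mulFun, ← integral_add, L1.norm_eq_integral_norm]
  · refine integral_congr_ae ?_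
    filter_upwards with t
    by_cases ht : t ∈ S <;> simp [ind, ht]
  · exact integrable_norm _ (ind_meas hS) (ind_le S) x
  · exact integrable_norm _ (ind_meas hS.compl) (ind_le _) x

/-- the integral over a measurable set -/
noncomputable def sfun {S : Set α} (hS : MeasurableSet S) : Lp 𝕜 1 μ →L[𝕜] 𝕜 :=
  integ.comp (res hS)

lemma sfun_le {S : Set α} (hS : MeasurableSet S) (x : Lp 𝕜 1 μ) : ‖sfun hS x‖ ≤ ‖res hS x‖ :=
  integ_le _

/-- the normalised indicator function of a set of finite positive measure -/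
lemma exists_unit {S T : Set α} (hS : MeasurableSet S) (hT : MeasurableSet T) (hTS : T ⊆ S)
    (h0 : μ T ≠ 0) (h1 : μ T ≠ ⊤) :
    ∃ u : Lp 𝕜 1 μ, res hS u = u ∧ ‖u‖ = 1 ∧ sfun hS u = 1 := by
  have hr : 0 < (μ T).toReal := ENNReal.toReal_pos h0 h1
  set c : 𝕜 := (((μ T).toReal⁻¹ : ℝ) : 𝕜) with hc
  set u : Lp 𝕜 1 μ := indicatorConstLp 1 hT h1 c with hu
  have hcoe : u =ᵐ[μ] T.indicator fun _ => c := indicatorConstLp_coeFn
  have e1 : res hS u = u := by
    refine Lp.ext ?_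
    filter_upwards [res_coe hS u, hcoe] with t h2 h3
    rw [h2, h3]
    by_cases ht : t ∈ T
    · simp [ind, hTS ht]
    · simp [ht]
  refine ⟨u, e1, ?_, ?_⟩
  · rw [hu, norm_indicatorConstLp one_ne_zero ENNReal.one_ne_top, hc, RCLike.norm_ofReal,
      abs_of_pos (inv_pos.mpr hr)]
    simp only [ENNReal.toReal_one, ne_eq, one_ne_zero, not_false_eq_true, div_self, Real.rpow_one]
    rw [Measure.real, inv_mul_cancel₀ hr.ne']
  · change integ (res hS u) = 1
    rw [e1, integ_eq, integral_congr_ae hcoe, integral_indicator_const _ hT, hc, Measure.real]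
    rw [RCLike.real_smul_eq_coe_mul, ← RCLike.ofReal_mul, mul_inv_cancel₀ hr.ne', RCLike.ofReal_one]

/-- there are two disjoint sets of finite positive measure -/
def TwoSets (μ : Measure α) : Prop :=
  ∃ S T : Set α, MeasurableSet S ∧ MeasurableSet T ∧ Disjoint S T ∧ 0 < μ S ∧ μ S < ⊤ ∧
    0 < μ T ∧ μ T < ⊤

lemma upper_L1 (h : TwoSets μ) : ∃ P : Lp 𝕜 1 μ → Lp 𝕜 1 μ, IsHomPoly 𝕜 2 P ∧ polyNorm P = 1 ∧
    numRadius 𝕜 P ≤ 1 / 2 := by
  obtain ⟨S, T, hS, hT, hd, hS0, hS1, hT0, hT1⟩ := h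
  obtain ⟨u1, a1, a2, a3⟩ := exists_unit (𝕜 := 𝕜) hS hS subset_rfl hS0.ne' hS1.ne
  obtain ⟨u2, b1, b2, b3⟩ := exists_unit (𝕜 := 𝕜) hS.compl hT
    (Set.subset_compl_iff_disjoint_left.mpr hd) hT0.ne' hT1.ne
  exact ⟨PS (res hS) (res hS.compl) (sfun hS) (sfun hS.compl), PS_hom _ _ _ _,
    PS_norm (res_add hS) (res_norm hS) (sfun_le hS) (sfun_le hS.compl) a1 b1 a2 b2 a3 b3,
    PS_radius (res_add hS) (res_norm hS) (sfun_le hS) (sfun_le hS.compl)⟩

theorem index_L1_le (h : TwoSets μ) : polyIndex 𝕜 2 (Lp 𝕜 1 μ) ≤ 1 / 2 := by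
  obtain ⟨P, h1, h2, h3⟩ := upper_L1 (𝕜 := 𝕜) h
  exact (polyIndex_le h1 h2).trans h3

end Pool.Agent.Zk48.PI
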