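import Pool.Agent.Zk48.PI.L1

set_option autoImplicit false

namespace Pool.Agent.Zk48.PI

open MeasureTheory

variable {α : Type*} [MeasurableSpace α] {μ : Measure α}

/-- the sign function of `y` -/
noncomputable def sgn (y : α → ℝ) (t : α) : ℝ := if 0 ≤ y t then 1 else -1

lemma sgn_meas {y : α → ℝ} (hy : Measurable y) : Measurable (sgn y) :=
  Measurable.ite (measurableSet_le measurable_const hy) measurable_const measurable_const

lemma sgn_le (y : α → ℝ) (t : α) : |sgn y t| ≤ 1 := by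
  unfold sgn; split_ifs <;> simp

lemma sgn_abs (y : α → ℝ) (t : α) : |sgn y t| = 1 := by
  unfold sgn; split_ifs <;> simp

lemma sgn_mul (y : α → ℝ) (t : α) : sgn y t * y t = |y t| := by
  unfold sgn
  split_ifs with h
  · rw [abs_of_nonneg h, one_mul]
  · rw [abs_of_neg (not_le.mp h)]; ring

lemma opNorm_le_one {f : Lp ℝ 1 μ →L[ℝ] ℝ} (h : ∀ x, ‖f x‖ ≤ ‖x‖) : ‖f‖ ≤ 1 :=
  f.opNorm_le_bound zero_le_one fun x => by rw [one_mul]; exact h x

lemma mulFun_le (h : α → ℝ) (hm : Measurable h) (hb : ∀ t, |h t| ≤ 1) (x : Lp ℝ 1 μ) :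
    ‖mulFun h hm hb x‖ ≤ ‖x‖ := by
  rw [norm_mulFun, L1.norm_eq_integral_norm]
  refine integral_mono (integrable_norm h hm hb x) (L1.integrable_coeFn x).norm fun t => ?_
  exact mul_le_of_le_one_left (norm_nonneg _) (hb t)

theorem low_L1 {P : Lp ℝ 1 μ → Lp ℝ 1 μ} (hP : IsHomPoly ℝ 2 P) {x : Lp ℝ 1 μ} (hx : ‖x‖ = 1) :
    ‖P x‖ ≤ 2 * numRadius ℝ P := by
  have hym : Measurable (P x) := (Lp.stronglyMeasurable (P x)).measurable
  have hxm : Measurable x := (Lp.stronglyMeasurable x).measurable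
  set h : α → ℝ := sgn (P x) with hh
  have hm : Measurable h := sgn_meas hym
  have hb : ∀ t, |h t| ≤ 1 := sgn_le _
  set g : Lp ℝ 1 μ →L[ℝ] ℝ := integ.comp (mulFun h hm hb) with hg
  have hg1 : ‖g‖ ≤ 1 := opNorm_le_one fun z => (integ_le _).trans (mulFun_le h hm hb z)
  have hgi : ∀ z, g z = ∫ t, h t * z t ∂μ := by
    intro z
    change integ (mulFun h hm hb z) = _
    rw [integ_eq]
    refine integral_congr_ae ?_
    filter_upwards [mulFun_coe h hm hb z] with t ht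
    rw [ht]; rfl
  have hgy : g (P x) = ‖P x‖ := by
    rw [hgi, L1.norm_eq_integral_norm]
    refine integral_congr_ae ?_
    filter_upwards with t
    rw [hh, sgn_mul, Real.norm_eq_abs]
  have hD : MeasurableSet {t | 0 ≤ h t * x t} := measurableSet_le measurable_const (hm.mul hxm)
  set x1 : Lp ℝ 1 μ := res hD x with hx1
  set x2 : Lp ℝ 1 μ := res hD.compl x with hx2
  have hsum : x1 + x2 = x := res_add hD x
  have hnorm : ‖x1‖ + ‖x2‖ = 1 := by rw [← hx, res_norm hD x]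
  have hg_1 : g x1 = ‖x1‖ := by
    rw [hgi, L1.norm_eq_integral_norm]
    refine integral_congr_ae ?_
    filter_upwards [res_coe hD x] with t ht
    rw [hx1, ht, Real.norm_eq_abs]
    by_cases h0 : 0 ≤ h t * x t
    · have e : ind {t | 0 ≤ h t * x t} t = 1 := if_pos h0
      rw [e]
      simp only [RCLike.ofReal_real_eq_id, id_eq, one_mul]
      have h1 : |h t * x t| = |x t| := by rw [abs_mul, hh, sgn_abs, one_mul]
      rw [← h1, abs_of_nonneg h0]
    · have e : ind {t | 0 ≤ h t * x t} t = 0 := if_neg h0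
      rw [e]
      simp
  have hg_2 : g x2 = -‖x2‖ := by
    rw [hgi, L1.norm_eq_integral_norm, ← integral_neg]
    refine integral_congr_ae ?_
    filter_upwards [res_coe hD.compl x] with t ht
    rw [hx2, ht, Real.norm_eq_abs]
    by_cases h0 : 0 ≤ h t * x t
    · have e : ind ({t | 0 ≤ h t * x t}ᶜ) t = 0 := if_neg (fun h' => h' h0)
      rw [e]
      simp
    · have e : ind ({t | 0 ≤ h t * x t}ᶜ) t = 1 := if_pos h0
      rw [e]
      simp only [RCLike.ofReal_real_eq_id, id_eq, one_mul]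
      have h1 : |h t * x t| = |x t| := by rw [abs_mul, hh, sgn_abs, one_mul]
      rw [← h1, abs_of_neg (not_le.mp h0), neg_neg]
  have hneg : ∀ z : Lp ℝ 1 μ, ‖z‖ ≤ 1 → g z = -1 → |g (P z)| ≤ numRadius ℝ P := by
    intro z hz1 hz2
    have := le_numRadius' (f := -g) hP hz1 (by rw [norm_neg]; exact hg1) (by
      rw [neg_apply, hz2, neg_neg])
    rw [neg_apply, norm_neg] at this
    exact this
  have hpos : ∀ z : Lp ℝ 1 μ, ‖z‖ ≤ 1 → g z = 1 → |g (P z)| ≤ numRadius ℝ P := by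
    intro z hz1 hz2
    exact le_numRadius' hP hz1 hg1 hz2
  have hv := numRadius_nonneg (𝕜 := ℝ) P
  have hmain : |g (P x)| ≤ 2 * numRadius ℝ P := by
    by_cases hp : ‖x1‖ = 0
    · have h1 : ‖x2‖ = 1 := by linarith
      have h2 : x2 = x := by rw [← hsum, norm_eq_zero.mp hp, zero_add]
      have h3 := hneg x hx.le (by rw [← h2, hg_2, h1])
      linarith
    by_cases hq : ‖x2‖ = 0
    · have h1 : ‖x1‖ = 1 := by linarith
      have h2 : x1 = x := by rw [← hsum, norm_eq_zero.mp hq, add_zero]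
      have h3 := hpos x hx.le (by rw [← h2, hg_1, h1])
      linarith
    have hp0 : 0 < ‖x1‖ := lt_of_le_of_ne (norm_nonneg _) (Ne.symm hp)
    have hq0 : 0 < ‖x2‖ := lt_of_le_of_ne (norm_nonneg _) (Ne.symm hq)
    have n1 : ‖(‖x1‖⁻¹) • x1‖ = 1 := by
      rw [norm_smul, norm_inv, norm_norm, inv_mul_cancel₀ hp]
    have n2 : ‖(‖x2‖⁻¹) • x2‖ = 1 := by
      rw [norm_smul, norm_inv, norm_norm, inv_mul_cancel₀ hq]
    have g1 : g ((‖x1‖⁻¹) • x1) = 1 := by
      rw [map_smul, hg_1, smul_eq_mul, inv_mul_cancel₀ hp]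
    have g2 : g ((‖x2‖⁻¹) • x2) = -1 := by
      rw [map_smul, hg_2, smul_eq_mul, mul_neg, inv_mul_cancel₀ hq]
    have key := quad_bound hP g (l := ‖x1‖) (v := numRadius ℝ P) hp0.le (by linarith)
      (x := (‖x1‖⁻¹) • x1) (y := (‖x2‖⁻¹) • x2) (hpos _ n1.le g1) (hneg _ n2.le g2) ?_
    · have e : ‖x1‖ • (‖x1‖⁻¹ • x1) + (1 - ‖x1‖) • (‖x2‖⁻¹ • x2) = x := by
        have h1 : 1 - ‖x1‖ = ‖x2‖ := by linarith
        rw [h1, smul_smul, smul_smul, mul_inv_cancel₀ hp, mul_inv_cancel₀ hq, one_smul, one_smul]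
        exact hsum
      rw [e] at key
      exact key
    · set w : Lp ℝ 1 μ := (‖x1‖⁻¹) • x1 - (‖x2‖⁻¹) • x2 with hw
      have hw1 : ‖(1 / 2 : ℝ) • w‖ ≤ 1 := by
        rw [norm_smul, Real.norm_eq_abs, abs_of_pos (by norm_num : (0 : ℝ) < 1 / 2)]
        have := norm_sub_le ((‖x1‖⁻¹) • x1) ((‖x2‖⁻¹) • x2)
        rw [n1, n2] at this
        linarith
      have hw2 : g ((1 / 2 : ℝ) • w) = 1 := by
        rw [map_smul, hw, map_sub, g1, g2, smul_eq_mul]; norm_num
      have h3 := hpos _ hw1 hw2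
      rw [hom_smul hP, map_smul, smul_eq_mul, abs_mul] at h3
      have e : |((1 : ℝ) / 2) ^ 2| = 1 / 4 := by norm_num
      rw [e] at h3
      linarith
  rw [hgy, abs_of_nonneg (norm_nonneg _)] at hmain
  exact hmain

theorem index_L1_real (h : TwoSets μ) : polyIndex ℝ 2 (Lp ℝ 1 μ) = 1 / 2 := by
  obtain ⟨P, h1, h2, h3⟩ := upper_L1 (𝕜 := ℝ) h
  exact index_eq (fun Q hQ x hx => low_L1 hQ hx) h1 h2 h3

end Pool.Agent.Zk48.PI
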