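import Pool.Agent.Zk48.PI.Basic

set_option autoImplicit false

namespace Pool.Agent.Zk48.PI

variable {𝕜 : Type*} [RCLike 𝕜] {X : Type*} [NormedAddCommGroup X] [NormedSpace 𝕜 X]

/-- the continuous multilinear map of a bilinear map -/
noncomputable def ofBilin (B : X →L[𝕜] X →L[𝕜] X) :
    ContinuousMultilinearMap 𝕜 (fun _ : Fin 2 => X) X :=
  MultilinearMap.mkContinuous
    { toFun := fun v => B (v 0) (v 1)
      map_update_add' := by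
        intro _ v i x y
        fin_cases i <;> simp [Function.update]
      map_update_smul' := by
        intro _ v i c x
        fin_cases i <;> simp [Function.update] } ‖B‖ (by
    intro v
    simp only [MultilinearMap.coe_mk, Fin.prod_univ_two]
    rw [← mul_assoc]
    exact B.le_opNorm₂ _ _)

lemma ofBilin_apply (B : X →L[𝕜] X →L[𝕜] X) (x : X) : ofBilin B (fun _ => x) = B x x := rfl

variable (R1 R2 : X →L[𝕜] X) (s1 s2 : X →L[𝕜] 𝕜)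

/-- the extremal polynomial on an `ℓ₁`-sum -/
noncomputable def PS (x : X) : X :=
  (1 / 2 : 𝕜) • ((s1 x + 3 * s2 x) • R1 x - (3 * s1 x + s2 x) • R2 x)

lemma PS_hom : IsHomPoly 𝕜 2 (PS R1 R2 s1 s2) := by
  refine ⟨ofBilin ((1 / 2 : 𝕜) • ((s1 + (3 : 𝕜) • s2).smulRight R1 -
    ((3 : 𝕜) • s1 + s2).smulRight R2)), fun x => ?_⟩
  rw [ofBilin_apply]
  simp [PS]

variable {R1 R2 s1 s2}

lemma real_ineq {r1 r2 : ℝ} (h1 : 0 ≤ r1) (h2 : 0 ≤ r2) (h : r1 + r2 = 1) :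
    r1 * |r1 - 3 * r2| + r2 * |3 * r1 - r2| ≤ 1 := by
  have e : r2 = 1 - r1 := by linarith
  subst e
  rcases le_total (r1 - 3 * (1 - r1)) 0 with h3 | h3 <;>
  rcases le_total (3 * r1 - (1 - r1)) 0 with h4 | h4
  · rw [abs_of_nonpos h3, abs_of_nonpos h4]; nlinarith
  · rw [abs_of_nonpos h3, abs_of_nonneg h4]; nlinarith [sq_nonneg (r1 - 1 / 2)]
  · rw [abs_of_nonneg h3, abs_of_nonpos h4]; nlinarith
  · rw [abs_of_nonneg h3, abs_of_nonneg h4]; nlinarith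

lemma PS_bound (hn : ∀ x, ‖x‖ = ‖R1 x‖ + ‖R2 x‖) (hs1 : ∀ x, ‖s1 x‖ ≤ ‖R1 x‖)
    (hs2 : ∀ x, ‖s2 x‖ ≤ ‖R2 x‖) {x : X} (hx : ‖x‖ = 1) : ‖PS R1 R2 s1 s2 x‖ ≤ 1 := by
  have hr := hn x
  rw [hx] at hr
  have a1 := norm_nonneg (R1 x)
  have a2 := norm_nonneg (R2 x)
  have b1 := hs1 x
  have b2 := hs2 x
  have c1 : ‖s1 x + 3 * s2 x‖ ≤ ‖R1 x‖ + 3 * ‖R2 x‖ := by
    refine (norm_add_le _ _).trans ?_
    rw [norm_mul, RCLike.norm_ofNat]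
    linarith
  have c2 : ‖3 * s1 x + s2 x‖ ≤ 3 * ‖R1 x‖ + ‖R2 x‖ := by
    refine (norm_add_le _ _).trans ?_
    rw [norm_mul, RCLike.norm_ofNat]
    linarith
  unfold PS
  rw [norm_smul]
  have e1 : ‖(1 / 2 : 𝕜)‖ = 1 / 2 := by
    rw [norm_div, norm_one, RCLike.norm_ofNat]
  rw [e1]
  have e2 : ‖(s1 x + 3 * s2 x) • R1 x - (3 * s1 x + s2 x) • R2 x‖ ≤ 2 := by
    refine (norm_sub_le _ _).trans ?_
    rw [norm_smul, norm_smul]
    have d1 := mul_le_mul_of_nonneg_right c1 a1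
    have d2 := mul_le_mul_of_nonneg_right c2 a2
    nlinarith [sq_nonneg (‖R1 x‖ - ‖R2 x‖)]
  linarith

lemma func_eq (hsum : ∀ x, R1 x + R2 x = x) (hn : ∀ x, ‖x‖ = ‖R1 x‖ + ‖R2 x‖) {x : X}
    (hx : ‖x‖ = 1) {f : X →L[𝕜] 𝕜} (hf : ‖f‖ = 1) (hfx : f x = 1) :
    f (R1 x) = (‖R1 x‖ : 𝕜) ∧ f (R2 x) = (‖R2 x‖ : 𝕜) := by
  have hr := hn x
  rw [hx] at hr
  have h1 : ‖f (R1 x)‖ ≤ ‖R1 x‖ := by simpa [hf] using f.le_opNorm (R1 x)
  have h2 : ‖f (R2 x)‖ ≤ ‖R2 x‖ := by simpa [hf] using f.le_opNorm (R2 x)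
  have h3 : RCLike.re (f (R1 x)) + RCLike.re (f (R2 x)) = 1 := by
    rw [← map_add, ← map_add, hsum, hfx, RCLike.one_re]
  have h4 := RCLike.re_le_norm (f (R1 x))
  have h5 := RCLike.re_le_norm (f (R2 x))
  constructor
  · have h6 : RCLike.re (f (R1 x)) = ‖R1 x‖ := by linarith
    rw [← h6]
    exact (RCLike.re_eq_self_of_le (by linarith)).symm
  · have h6 : RCLike.re (f (R2 x)) = ‖R2 x‖ := by linarith
    rw [← h6]
    exact (RCLike.re_eq_self_of_le (by linarith)).symm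

lemma PS_radius (hsum : ∀ x, R1 x + R2 x = x) (hn : ∀ x, ‖x‖ = ‖R1 x‖ + ‖R2 x‖)
    (hs1 : ∀ x, ‖s1 x‖ ≤ ‖R1 x‖) (hs2 : ∀ x, ‖s2 x‖ ≤ ‖R2 x‖) :
    numRadius 𝕜 (PS R1 R2 s1 s2) ≤ 1 / 2 := by
  refine Real.sSup_le ?_ (by norm_num)
  rintro r ⟨x, f, hx, hf, hfx, rfl⟩
  obtain ⟨e1, e2⟩ := func_eq hsum hn hx hf hfx
  have hr := hn x
  rw [hx] at hr
  have key := real_ineq (norm_nonneg (R1 x)) (norm_nonneg (R2 x)) hr.symm
  have e3 : f (PS R1 R2 s1 s2 x) = (1 / 2 : 𝕜) *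
      (s1 x * ((‖R1 x‖ - 3 * ‖R2 x‖ : ℝ) : 𝕜) + s2 x * ((3 * ‖R1 x‖ - ‖R2 x‖ : ℝ) : 𝕜)) := by
    unfold PS
    rw [map_smul, map_sub, map_smul, map_smul, e1, e2]
    simp only [smul_eq_mul]
    push_cast
    ring
  rw [e3, norm_mul]
  have e4 : ‖(1 / 2 : 𝕜)‖ = 1 / 2 := by
    rw [norm_div, norm_one, RCLike.norm_ofNat]
  rw [e4]
  have e5 : ‖s1 x * ((‖R1 x‖ - 3 * ‖R2 x‖ : ℝ) : 𝕜) + s2 x * ((3 * ‖R1 x‖ - ‖R2 x‖ : ℝ) : 𝕜)‖ ≤ 1 := by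
    refine (norm_add_le _ _).trans (le_trans ?_ key)
    rw [norm_mul, norm_mul, RCLike.norm_ofReal, RCLike.norm_ofReal]
    exact add_le_add (mul_le_mul_of_nonneg_right (hs1 x) (abs_nonneg _))
      (mul_le_mul_of_nonneg_right (hs2 x) (abs_nonneg _))
  linarith

lemma PS_norm (hsum : ∀ x, R1 x + R2 x = x) (hn : ∀ x, ‖x‖ = ‖R1 x‖ + ‖R2 x‖)
    (hs1 : ∀ x, ‖s1 x‖ ≤ ‖R1 x‖) (hs2 : ∀ x, ‖s2 x‖ ≤ ‖R2 x‖) {u1 u2 : X} (h1 : R1 u1 = u1)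
    (h2 : R2 u2 = u2) (hu1 : ‖u1‖ = 1) (hu2 : ‖u2‖ = 1) (hsu1 : s1 u1 = 1) (hsu2 : s2 u2 = 1) :
    polyNorm (PS R1 R2 s1 s2) = 1 := by
  refine le_antisymm ?_ ?_
  · refine Real.sSup_le ?_ zero_le_one
    rintro r ⟨x, hx, rfl⟩
    exact PS_bound hn hs1 hs2 hx
  · have h12 : R2 u1 = 0 := by
      have := hsum u1
      rwa [h1, add_eq_left] at this
    have h21 : R1 u2 = 0 := by
      have := hsum u2
      rwa [h2, add_eq_right] at this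
    have hs12 : s1 u2 = 0 := by
      have := hs1 u2
      rw [h21, norm_zero] at this
      exact norm_le_zero_iff.mp this
    have hs21 : s2 u1 = 0 := by
      have := hs2 u1
      rw [h12, norm_zero] at this
      exact norm_le_zero_iff.mp this
    have e4 : ‖(1 / 2 : 𝕜)‖ = 1 / 2 := by
      rw [norm_div, norm_one, RCLike.norm_ofNat]
    have hx : ‖(1 / 2 : 𝕜) • (u1 + u2)‖ = 1 := by
      rw [hn, map_smul, map_smul, map_add, map_add, h1, h2, h12, h21, add_zero, zero_add,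
        norm_smul, norm_smul, hu1, hu2, e4]
      norm_num
    have hP : PS R1 R2 s1 s2 ((1 / 2 : 𝕜) • (u1 + u2)) = (1 / 2 : 𝕜) • (u1 - u2) := by
      unfold PS
      simp only [map_smul, map_add, h1, h2, h12, h21, add_zero, zero_add, hsu1, hsu2, hs12, hs21,
        smul_eq_mul]
      module
    have hP' : ‖(1 / 2 : 𝕜) • (u1 - u2)‖ = 1 := by
      rw [hn, map_smul, map_smul, map_sub, map_sub, h1, h2, h12, h21, sub_zero, zero_sub,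
        norm_smul, norm_smul, norm_neg, hu1, hu2, e4]
      norm_num
    have := le_polyNorm (PS_hom R1 R2 s1 s2) hx
    rw [hP, hP'] at this
    exact this

end Pool.Agent.Zk48.PI
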